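import Pool.Agent.Helper5.UN.Goals

/-!
# Project UN (MP_a41896_nt): packet HILB
-/

set_option autoImplicit false

namespace Pool.Agent.Helper54.UN

open MvPolynomial
open Pool.Agent.Helper5.UN

open scoped IntermediateField.algebraAdjoinAdjoin in
/-- dimension count (after helper70) -/
theorem indep_card {K Ω ι : Type} [Field K] [Field Ω] [Algebra K Ω] [Finite ι] (ξ : ι → Ω)
    (hξ : AlgebraicIndependent K ξ) (S : Set Ω)
    (h : ∀ i, IsAlgebraic (IntermediateField.adjoin K S) (ξ i)) :
    (Nat.card ι : ℕ∞) ≤ S.encard := by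
  have hind : (AlgebraicIndependent.matroid K Ω).Indep (Set.range ξ) :=
    AlgebraicIndependent.matroid_indep_iff.mpr hξ.to_subtype_range
  have hsub : Set.range ξ ⊆ (AlgebraicIndependent.matroid K Ω).closure S := by
    rintro _ ⟨i, rfl⟩
    rw [AlgebraicIndependent.matroid_closure_eq, SetLike.mem_coe, Subalgebra.mem_algebraicClosure]
    exact (IsFractionRing.isAlgebraic_iff (Algebra.adjoin K S) (IntermediateField.adjoin K S) Ω).mpr
      (h i)
  have h1 := hind.encard_le_eRk_of_subset hsub
  rw [Matroid.eRk_closure_eq] at h1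
  have h2 := h1.trans (Matroid.eRk_le_encard _ S)
  have h3 : (Set.range ξ).encard = (Nat.card ι : ℕ∞) := by
    rw [← Set.image_univ, hξ.injective.encard_image, Set.encard_univ, ENat.card_eq_coe_natCard]
  rwa [h3] at h2

/-- (1) elimination -/
theorem elim_ex {K : Type} [Field K] {V : Type} (I : Ideal (MvPolynomial V K)) (d : ℕ)
    (H : ∀ (Ω : Type) [Field Ω] [Algebra K Ω] (ζ : V → Ω), (∀ g ∈ I, aeval ζ g = 0) →
      ∃ T : Finset Ω, T.card ≤ d ∧
        ∀ i, IsAlgebraic (IntermediateField.adjoin K (T : Set Ω)) (ζ i))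
    (J : Finset V) (hJ : J.card = d + 1) :
    ∃ E ∈ I, E ≠ 0 ∧ ∀ c ∈ E.support, ∀ i ∉ J, c i = 0 := by
  classical
  by_contra hne
  push Not at hne
  have hinj : Function.Injective (rename (R := K) (Subtype.val : J → V)) :=
    rename_injective _ Subtype.val_injective
  set S : Submonoid (MvPolynomial V K) :=
    Submonoid.map (rename (R := K) (Subtype.val : J → V)) (nonZeroDivisors (MvPolynomial J K))
    with hS
  have hdis : Disjoint (I : Set (MvPolynomial V K)) (S : Set (MvPolynomial V K)) := by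
    rw [Set.disjoint_left]
    rintro x hx ⟨q, hq, rfl⟩
    have hq0 : q ≠ 0 := nonZeroDivisors.ne_zero hq
    obtain ⟨c, hc, i, hi, hci⟩ := hne _ hx ((map_ne_zero_iff _ hinj).2 hq0)
    apply hci
    erw [support_rename_of_injective Subtype.val_injective] at hc
    obtain ⟨c', -, rfl⟩ := Finset.mem_image.1 hc
    apply Finsupp.mapDomain_of_notMem_range
    rintro ⟨⟨j, hj⟩, rfl⟩
    exact hi hj
  obtain ⟨P, hP, hIP, hPS⟩ := Ideal.exists_le_prime_disjoint I S hdis
  let Ω := FractionRing (MvPolynomial V K ⧸ P)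
  let ζ : V → Ω := fun i => algebraMap (MvPolynomial V K ⧸ P) Ω (Ideal.Quotient.mk P (X i))
  have hζ : ∀ g, aeval ζ g = algebraMap (MvPolynomial V K ⧸ P) Ω (Ideal.Quotient.mk P g) := by
    intro g
    have : (aeval ζ : MvPolynomial V K →ₐ[K] Ω) =
        (IsScalarTower.toAlgHom K (MvPolynomial V K ⧸ P) Ω).comp (Ideal.Quotient.mkₐ K P) := by
      ext i
      simp [ζ]
    rw [this]
    rfl
  have hinjQ : Function.Injective (algebraMap (MvPolynomial V K ⧸ P) Ω) :=
    IsFractionRing.injective _ _
  obtain ⟨T, hT, hTa⟩ := H Ω ζ (by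
    intro g hg
    rw [hζ, Ideal.Quotient.eq_zero_iff_mem.2 (hIP hg), map_zero])
  have hind : AlgebraicIndependent K (fun j : J => ζ j) := by
    rw [algebraicIndependent_iff]
    intro q hq
    by_contra hq0
    have h1 : aeval (fun j : J => ζ j) q = aeval ζ (rename Subtype.val q) := by
      rw [aeval_rename]
      rfl
    rw [h1, hζ, map_eq_zero_iff _ hinjQ, Ideal.Quotient.eq_zero_iff_mem] at hq
    exact Set.disjoint_left.1 hPS hq ⟨q, mem_nonZeroDivisors_of_ne_zero hq0, rfl⟩
  have h2 := indep_card (fun j : J => ζ j) hind (T : Set Ω) (fun j => hTa j)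
  rw [Set.encard_coe_eq_coe_finsetCard, Nat.card_eq_fintype_card, Fintype.card_coe, hJ] at h2
  have h3 : d + 1 ≤ T.card := by exact_mod_cast h2
  omega

/-- (2) counting -/
theorem mon_card {V : Type} [Finite V] (d e : ℕ) (he : 1 ≤ e) :
    ∃ c, ∀ R : ℕ, 1 ≤ R → ∃ M : Finset (V →₀ ℕ), M.card ≤ c * R ^ d ∧
      ∀ m : V →₀ ℕ, m.degree ≤ R → (¬ ∃ J : Finset V, J.card = d + 1 ∧ ∀ i ∈ J, e ≤ m i) →
        m ∈ M := by
  classical
  have := Fintype.ofFinite V
  refine ⟨2 ^ Fintype.card V * (2 ^ d * e ^ Fintype.card V), fun R hR => ?_⟩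
  let B : Finset V → Finset (V →₀ ℕ) := fun D =>
    (Fintype.piFinset fun i => if i ∈ D then Finset.range (R + 1) else Finset.range e).map
      Finsupp.equivFunOnFinite.symm.toEmbedding
  have hB : ∀ D : Finset V, D.card ≤ d → (B D).card ≤ 2 ^ d * e ^ Fintype.card V * R ^ d := by
    intro D hD
    rw [Finset.card_map, Fintype.card_piFinset]
    have h1 : ∀ i ∈ Finset.univ, (if i ∈ D then Finset.range (R + 1) else Finset.range e).card ≤
        (if i ∈ D then 2 * R else 1) * e := by
      intro i _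
      split_ifs
      · rw [Finset.card_range]
        nlinarith
      · rw [Finset.card_range, one_mul]
    refine (Finset.prod_le_prod (fun _ _ => Nat.zero_le _) h1).trans ?_
    rw [Finset.prod_mul_distrib, Finset.prod_const, Finset.card_univ,
      Finset.prod_ite_mem, Finset.univ_inter, Finset.prod_const]
    have h2 : (2 * R) ^ D.card ≤ (2 * R) ^ d := Nat.pow_le_pow_right (by omega) hD
    calc (2 * R) ^ D.card * e ^ Fintype.card V ≤ (2 * R) ^ d * e ^ Fintype.card V :=
          Nat.mul_le_mul_right _ h2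
      _ = 2 ^ d * e ^ Fintype.card V * R ^ d := by rw [mul_pow]; ring
  refine ⟨(Finset.univ.filter fun D : Finset V => D.card ≤ d).biUnion B, ?_, ?_⟩
  · refine Finset.card_biUnion_le.trans ?_
    refine (Finset.sum_le_card_nsmul _ _ _ fun D hD => hB D (Finset.mem_filter.1 hD).2).trans ?_
    rw [smul_eq_mul, mul_assoc (2 ^ Fintype.card V)]
    apply Nat.mul_le_mul_right
    refine (Finset.card_filter_le _ _).trans ?_
    rw [Finset.card_univ, Fintype.card_finset]
  · intro m hm hJ
    rw [Finset.mem_biUnion]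
    refine ⟨Finset.univ.filter fun i => e ≤ m i, ?_, ?_⟩
    · rw [Finset.mem_filter]
      refine ⟨Finset.mem_univ _, ?_⟩
      by_contra hc
      obtain ⟨J, hJs, hJc⟩ := Finset.exists_subset_card_eq (show d + 1 ≤ _ by
        exact Nat.succ_le_of_lt (not_le.1 hc))
      exact hJ ⟨J, hJc, fun i hi => (Finset.mem_filter.1 (hJs hi)).2⟩
    · rw [Finset.mem_map]
      refine ⟨m, ?_, ?_⟩
      · rw [Fintype.mem_piFinset]
        intro i
        split_ifs with h
        · rw [Finset.mem_range]
          have := Finsupp.le_degree i m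
          omega
        · rw [Finset.mem_range]
          rw [Finset.mem_filter, not_and] at h
          exact not_le.1 (h (Finset.mem_univ _))
      · ext i
        rfl

/-- (3) an injection on a finite dimensional subspace -/
theorem lin_ex {K E : Type} [Field K] [AddCommGroup E] [Module K E] (U : Submodule K E)
    [FiniteDimensional K U] (N : ℕ) (h : Module.finrank K U ≤ N) :
    ∃ ψ : E →ₗ[K] (Fin N → K), ∀ u ∈ U, ψ u = 0 → u = 0 := by
  let b := Module.finBasis K U
  let φ : U →ₗ[K] (Fin N → K) :=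
    (Function.ExtendByZero.linearMap K (Fin.castLE h)).comp b.equivFun.toLinearMap
  obtain ⟨ψ, hψ⟩ := LinearMap.exists_extend φ
  refine ⟨ψ, fun u hu h0 => ?_⟩
  have h1 : φ ⟨u, hu⟩ = 0 := by
    rw [← hψ]
    exact h0
  have h2 : b.equivFun ⟨u, hu⟩ = 0 := by
    funext i
    have h3 := congrFun h1 (Fin.castLE h i)
    have h4 : φ ⟨u, hu⟩ (Fin.castLE h i) = b.equivFun ⟨u, hu⟩ i :=
      (Fin.castLE_injective h).extend_apply _ _ _
    rw [h4] at h3
    exact h3
  have h5 := (LinearEquiv.map_eq_zero_iff _).1 h2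
  exact congrArg Subtype.val h5

open scoped MonomialOrder in
theorem gHILB : G_HILB := by
  classical
  intro K _ V _ I d H
  have := Fintype.ofFinite V
  obtain ⟨n, ⟨eqv⟩⟩ := Finite.exists_equiv_fin V
  let _ : LinearOrder V := LinearOrder.lift' eqv eqv.injective
  have hE := fun J : {J : Finset V // J.card = d + 1} => elim_ex I d H J.1 J.2
  choose E hEI hE0 hEs using hE
  let m : MonomialOrder V := MonomialOrder.degLex
  have hb : ∀ J, IsUnit (m.leadingCoeff (E J)) := fun J =>
    isUnit_iff_ne_zero.2 (m.leadingCoeff_ne_zero_iff.2 (hE0 J))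
  obtain ⟨e, he1, he⟩ : ∃ e : ℕ, 1 ≤ e ∧ ∀ J i, m.degree (E J) i < e := by
    refine ⟨(Finset.univ.sup fun J => Finset.univ.sup fun i => m.degree (E J) i) + 1,
      Nat.le_add_left _ _, fun J i => Nat.lt_succ_of_le ?_⟩
    exact (Finset.le_sup (f := fun i => m.degree (E J) i) (Finset.mem_univ i)).trans
      (Finset.le_sup (f := fun J => Finset.univ.sup fun i => m.degree (E J) i)
        (Finset.mem_univ J))
  obtain ⟨c, hc⟩ := mon_card (V := V) d e he1
  refine ⟨c, fun R hR => ?_⟩
  obtain ⟨M, hM, hMm⟩ := hc R hR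
  let s : Finset (MvPolynomial V K ⧸ I) :=
    M.image fun a => Ideal.Quotient.mkₐ K I (monomial a (1 : K))
  let U : Submodule K (MvPolynomial V K ⧸ I) := Submodule.span K (s : Set _)
  have hU : Module.finrank K U ≤ c * R ^ d :=
    (finrank_span_finset_le_card s).trans (Finset.card_image_le.trans hM)
  have : FiniteDimensional K U := FiniteDimensional.span_finset K s
  obtain ⟨ψ, hψ⟩ := lin_ex U (c * R ^ d) hU
  refine ⟨ψ.comp (Ideal.Quotient.mkₐ K I).toLinearMap, fun p hp hp0 => ?_⟩
  have hpU : Ideal.Quotient.mkₐ K I p ∈ U := by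
    obtain ⟨g, r, hgr, hdeg, hr⟩ := m.div hb p
    have hlc : Finsupp.linearCombination (MvPolynomial V K) E g = ∑ J ∈ g.support, E J * g J := by
      rw [Finsupp.linearCombination_apply, Finsupp.sum]
      exact Finset.sum_congr rfl fun J _ => by rw [smul_eq_mul, mul_comm]
    have hlI : Finsupp.linearCombination (MvPolynomial V K) E g ∈ I := by
      rw [hlc]
      exact I.sum_mem fun J _ => I.mul_mem_right _ (hEI J)
    have h1 : Ideal.Quotient.mkₐ K I p = Ideal.Quotient.mkₐ K I r := by
      conv_lhs => rw [hgr]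
      rw [map_add]
      have : Ideal.Quotient.mkₐ K I (Finsupp.linearCombination (MvPolynomial V K) E g) = 0 :=
        Ideal.Quotient.eq_zero_iff_mem.2 hlI
      rw [this, zero_add]
    have h2 : r.totalDegree ≤ R := by
      have h3 : r = p - Finsupp.linearCombination (MvPolynomial V K) E g := by
        rw [eq_sub_iff_add_eq, add_comm]
        exact hgr.symm
      rw [h3]
      refine (totalDegree_sub _ _).trans (max_le hp ?_)
      rw [hlc]
      refine (totalDegree_finsetSum _ _).trans (Finset.sup_le fun J _ => ?_)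
      exact (degLex_totalDegree_monotone (hdeg J)).trans hp
    rw [h1, r.as_sum, map_sum]
    refine U.sum_mem fun a ha => ?_
    have haM : a ∈ M := by
      apply hMm a ((le_totalDegree ha).trans h2)
      rintro ⟨J, hJ, hJe⟩
      apply hr a ha ⟨J, hJ⟩
      intro i
      by_cases hi : i ∈ J
      · exact (he ⟨J, hJ⟩ i).le.trans (hJe i hi)
      · rw [hEs ⟨J, hJ⟩ _ (m.degree_mem_support (hE0 ⟨J, hJ⟩)) i hi]
        exact Nat.zero_le _
    have h4 : monomial a (coeff a r) = coeff a r • monomial a (1 : K) := by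
      rw [smul_monomial, smul_eq_mul, mul_one]
    rw [h4, map_smul]
    exact U.smul_mem _ (Submodule.subset_span (Finset.mem_coe.2 (Finset.mem_image_of_mem _ haM)))
  have h0 := hψ _ hpU hp0
  exact Ideal.Quotient.eq_zero_iff_mem.1 h0

end Pool.Agent.Helper54.UN
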