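import Pool.Agent.Helper54.NW.ZP
import Pool.Agent.Helper71.KZ.BAL

/-!
# Groups with a normal subgroup `ℤ²` of infinite index
-/

set_option autoImplicit false

namespace Pool.Agent.Helper54.UN

open Pool.Agent.Helper52.Wq2 Pool.Agent.Helper54.NW Pool.Agent.Helper61.NW

universe u

/-- The combinatorial part. -/
theorem core {Γ : Type u} [Group Γ] {S : Set Γ} (hS : IsGen S) {a e : Γ} (hae : a * e = e * a)
    (hind : ∀ i j : ℤ, a ^ i * e ^ j = 1 → i = 0 ∧ j = 0) {P Y : Set Γ} (hPf : P.Finite)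
    (hYf : Y.Finite) (hP : Conn (cay S) P) (hY : Conn (cay S) Y) (h1P : (1 : Γ) ∈ P) (haP : a ∈ P)
    {z : Γ} (hzY : z ∈ Y) (hezY : e * z ∈ Y)
    (hdis : ∀ i j : ℤ, ∀ p ∈ P, ∀ y ∈ Y, a ^ i * e ^ j * p ≠ y)
    {m : ℤ} (hm : 0 < m) {f : ℤ → Γ} (hf0 : f 0 ∈ P) (hfm : f m ∈ Y)
    (hfa : ∀ s, 0 ≤ s → s < m → (cay S).Adj (f s) (f (s + 1)))
    (hfP : ∀ s, 0 < s → s < m → ∀ i j : ℤ, ∀ p ∈ P, f s ≠ a ^ i * e ^ j * p)
    (hfY : ∀ s, 0 < s → s < m → ∀ i j : ℤ, ∀ y ∈ Y, f s ≠ a ^ i * e ^ j * y) :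
    Mn (⊤ : SimpleGraph ℕ) (cay S) := by
  classical
  obtain ⟨F, hF⟩ : ∃ F : ℤ → ℤ → Γ, ∀ i j, F i j = a ^ i * e ^ j := ⟨_, fun i j => rfl⟩
  simp only [← hF] at hind hdis hfP hfY
  have Fmul : ∀ i j i' j', F i j * F i' j' = F (i + i') (j + j') := by
    intro i j i' j'
    have c1 : Commute (a ^ i') (e ^ j) := (show Commute a e from hae).zpow_zpow _ _
    rw [hF, hF, hF, zpow_add, zpow_add]
    calc a ^ i * e ^ j * (a ^ i' * e ^ j') = a ^ i * (e ^ j * a ^ i') * e ^ j' := by group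
      _ = a ^ i * (a ^ i' * e ^ j) * e ^ j' := by rw [c1.eq]
      _ = _ := by group
  have F0 : F 0 0 = 1 := by rw [hF]; simp
  have Finv : ∀ i j, (F i j)⁻¹ = F (-i) (-j) := by
    intro i j
    rw [inv_eq_iff_mul_eq_one, Fmul, add_neg_cancel, add_neg_cancel, F0]
  have hmv : ∀ {i j i' j' : ℤ} {p q : Γ}, F i j * p = F i' j' * q →
      F (i - i') (j - j') * p = q := by
    intro i j i' j' p q h
    have h1 : (F i' j')⁻¹ * (F i j * p) = q := by rw [h, inv_mul_cancel_left]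
    rw [Finv, ← mul_assoc, Fmul] at h1
    rw [← h1]
    congr 2 <;> ring
  -- the bound
  obtain ⟨X, hX⟩ : ∃ X : Set Γ, X = (P ∪ Y) ∪ f '' (Set.Icc 0 m) := ⟨_, rfl⟩
  have hXf : X.Finite := by
    rw [hX]
    exact (hPf.union hYf).union ((Set.finite_Icc _ _).image _)
  obtain ⟨K, hK0, hK⟩ : ∃ K : ℤ, 0 < K ∧ ∀ i j, ∀ x ∈ X, ∀ y ∈ X, F i j * x = y →
      |i| < K ∧ |j| < K := by
    have h2 : ((fun p : ℤ × ℤ => F p.1 p.2) ⁻¹'
        (Set.image2 (fun x y : Γ => x * y⁻¹) X X)).Finite := by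
      refine (hXf.image2 _ hXf).preimage ?_
      rintro ⟨c, g⟩ - ⟨c', g'⟩ - h3
      have h3' : F c g = F c' g' := h3
      have h4 : F (c - c') (g - g') = 1 := by
        have h5 : F c g * (F c' g')⁻¹ = 1 := by rw [h3', mul_inv_cancel]
        rw [Finv, Fmul] at h5
        rw [← h5]
        congr 1
      obtain ⟨h5, h6⟩ := hind _ _ h4
      have e1 : c = c' := by omega
      have e2 : g = g' := by omega
      rw [e1, e2]
    obtain ⟨M, hM⟩ := (h2.image (fun p : ℤ × ℤ => |p.1| + |p.2|)).bddAbove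
    refine ⟨|M| + 1, by positivity, fun i j x hx y hy h3 => ?_⟩
    have h4 : |i| + |j| ≤ M := hM ⟨(i, j), ⟨y, hy, x, hx, by
      show y * x⁻¹ = F i j
      rw [← h3, mul_inv_cancel_right]⟩, rfl⟩
    have a1 := le_abs_self M
    have a2 := abs_nonneg i
    have a3 := abs_nonneg j
    constructor <;> omega
  have hPX : ∀ p ∈ P, p ∈ X := fun p hp => by rw [hX]; exact Or.inl (Or.inl hp)
  have hYX : ∀ p ∈ Y, p ∈ X := fun p hp => by rw [hX]; exact Or.inl (Or.inr hp)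
  have hfX : ∀ s, 0 ≤ s → s ≤ m → f s ∈ X := fun s h1 h2 => by
    rw [hX]; exact Or.inr ⟨s, ⟨h1, h2⟩, rfl⟩
  have hKm : ∀ i i' : ℤ, |K * i - K * i'| < K → i = i' := by
    intro i i' h
    rw [← mul_sub, abs_mul, abs_of_pos hK0] at h
    by_contra hne
    have h1 : 1 ≤ |i - i'| := Int.one_le_abs (by omega)
    have h2 : K * 1 ≤ K * |i - i'| := mul_le_mul_of_nonneg_left h1 hK0.le
    omega
  -- the pieces
  let Li : ℤ → Set Γ := fun i => {x | ∃ n, x ∈ {x | ∃ p ∈ P, F n (K * i) * p = x}}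
  let Mi : ℤ → Set Γ := fun i => {x | ∃ n, x ∈ {x | ∃ y ∈ Y, F (K * i) n * y = x}}
  let cf : ℤ → ℤ → Set Γ := fun i j =>
    {x | ∃ s, (0 ≤ s ∧ s ≤ m) ∧ F (K * j) (K * i) * f s = x}
  let ch : ℤ → ℤ → Set Γ := fun i j =>
    {x | ∃ s, (0 ≤ s ∧ s ≤ m - 1) ∧ F (K * j) (K * i) * f s = x}
  have hcP : ∀ g : Γ, ∀ Q : Set Γ, Conn (cay S) Q → Conn (cay S) {x | ∃ p ∈ Q, g * p = x} := by
    intro g Q hQ
    exact hQ.image (G' := cay S) (fun x => g * x)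
      (fun x _ y _ hxy => Or.inr ((cay_left S g x y).2 hxy))
  have hLi : ∀ i, Conn (cay S) (Li i) := by
    intro i
    refine conn_chainZ _ (fun n => hcP _ _ hP) ?_
    intro n
    refine ⟨F n (K * i) * a, ⟨a, haP, rfl⟩, ⟨1, h1P, ?_⟩⟩
    have h1 : F 1 0 = a := by rw [hF]; simp
    rw [mul_one, ← h1, Fmul, add_zero]
  have hMi : ∀ i, Conn (cay S) (Mi i) := by
    intro i
    refine conn_chainZ _ (fun n => hcP _ _ hY) ?_
    intro n
    refine ⟨F (K * i) n * (e * z), ⟨e * z, hezY, rfl⟩, ⟨z, hzY, ?_⟩⟩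
    have h1 : F 0 1 = e := by rw [hF]; simp
    rw [← mul_assoc, ← h1, Fmul, add_zero]
  have hcf : ∀ i j, Conn (cay S) (cf i j) := by
    intro i j
    refine conn_line (fun s : ℤ => F (K * j) (K * i) * f s) (fun s => 0 ≤ s ∧ s ≤ m) 0
      ⟨le_refl _, by omega⟩ ?_ ?_ (fun s h1 h2 => (cay_left S _ _ _).2 (hfa s h1.1 (by omega)))
    · rintro y hy ⟨h1, h2⟩
      exact ⟨hy, by omega⟩
    · rintro y hy ⟨h1, h2⟩
      exact ⟨by omega, by omega⟩
  have hch : ∀ i j, Conn (cay S) (ch i j) := by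
    intro i j
    refine conn_line (fun s : ℤ => F (K * j) (K * i) * f s) (fun s => 0 ≤ s ∧ s ≤ m - 1) 0
      ⟨le_refl _, by omega⟩ ?_ ?_ (fun s h1 h2 => (cay_left S _ _ _).2 (hfa s h1.1 (by omega)))
    · rintro y hy ⟨h1, h2⟩
      exact ⟨hy, by omega⟩
    · rintro y hy ⟨h1, h2⟩
      exact ⟨by omega, by omega⟩
  have h0L : ∀ i j, F (K * j) (K * i) * f 0 ∈ Li i := fun i j => ⟨K * j, f 0, hf0, rfl⟩
  have hmM : ∀ i j, F (K * j) (K * i) * f m ∈ Mi j := fun i j => ⟨K * i, f m, hfm, rfl⟩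
  let φ : ℕ → Set Γ := fun i => {x | x ∈ (Li i ∪ cf i i) ∪ Mi i ∨
    ∃ j : {j : ℕ // i < j}, x ∈ ch i (j : ℕ)}
  -- kinds of elements
  have hkind : ∀ (i : ℕ) x, x ∈ φ i → x ∈ Li i ∨ x ∈ Mi i ∨
      ∃ (j : ℤ) (s : ℤ), (0 < s ∧ s < m) ∧ F (K * j) (K * i) * f s = x := by
    rintro i x (((h | ⟨s, ⟨h1, h2⟩, rfl⟩) | h) | ⟨j, s, ⟨h1, h2⟩, rfl⟩)
    · exact Or.inl h
    · rcases lt_or_eq_of_le h1 with h3 | h3
      · rcases lt_or_eq_of_le h2 with h4 | h4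
        · exact Or.inr (Or.inr ⟨i, s, ⟨h3, h4⟩, rfl⟩)
        · rw [h4]
          exact Or.inr (Or.inl (hmM i i))
      · rw [← h3]
        exact Or.inl (h0L i i)
    · exact Or.inr (Or.inl h)
    · rcases lt_or_eq_of_le h1 with h3 | h3
      · exact Or.inr (Or.inr ⟨(j : ℕ), s, ⟨h3, by omega⟩, rfl⟩)
      · rw [← h3]
        exact Or.inl (h0L i (j : ℕ))
  have hLL : ∀ i i' x, x ∈ Li i → x ∈ Li i' → i = i' := by
    rintro i i' x ⟨n, p, hp, rfl⟩ ⟨n', p', hp', h⟩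
    have h1 := hK _ _ _ (hPX p' hp') _ (hPX p hp) (hmv h)
    exact (hKm _ _ h1.2).symm
  have hMM : ∀ i i' x, x ∈ Mi i → x ∈ Mi i' → i = i' := by
    rintro i i' x ⟨n, p, hp, rfl⟩ ⟨n', p', hp', h⟩
    have h1 := hK _ _ _ (hYX p' hp') _ (hYX p hp) (hmv h)
    exact (hKm _ _ h1.1).symm
  have hLM : ∀ i i' x, x ∈ Li i → x ∈ Mi i' → False := by
    rintro i i' x ⟨n, p, hp, rfl⟩ ⟨n', y, hy, h⟩
    exact hdis _ _ p hp y hy (hmv h.symm)
  have hLs : ∀ i i' j s, 0 < s → s < m → F (K * j) (K * i) * f s ∈ Li i' → False := by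
    rintro i i' j s h1 h2 ⟨n, p, hp, h⟩
    exact hfP s h1 h2 _ _ p hp (hmv h).symm
  have hMs : ∀ i i' j s, 0 < s → s < m → F (K * j) (K * i) * f s ∈ Mi i' → False := by
    rintro i i' j s h1 h2 ⟨n, p, hp, h⟩
    exact hfY s h1 h2 _ _ p hp (hmv h).symm
  refine ⟨φ, ?_, ?_, ?_⟩
  · intro i
    refine conn_starm (fun j : {j : ℕ // i < j} => ch i (j : ℕ))
      (conn_meet (conn_meet (hLi i) (hcf i i) (h0L i i) ⟨0, ⟨le_refl _, hm.le⟩, rfl⟩) (hMi i)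
        (Or.inr ⟨m, ⟨hm.le, le_refl _⟩, rfl⟩) (hmM i i)) (fun j => hch i (j : ℕ)) ?_
    intro j
    exact ⟨F (K * ((j : ℕ) : ℤ)) (K * (i : ℤ)) * f 0, Or.inl (Or.inl (h0L i (j : ℕ))),
      ⟨0, ⟨le_refl _, by omega⟩, rfl⟩⟩
  · intro i i' x h1 h2
    have hc : ∀ i i' : ℤ, i = i' → ∀ j j' : ℕ, i = j → i' = j' → j = j' := by
      intro i i' h j j' h1 h2
      omega
    rcases hkind i x h1 with g1 | g1 | ⟨j, s, ⟨g1, g2⟩, rfl⟩
    · rcases hkind i' x h2 with g3 | g3 | ⟨j', s', ⟨g3, g4⟩, rfl⟩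
      · exact_mod_cast hLL _ _ _ g1 g3
      · exact (hLM _ _ _ g1 g3).elim
      · exact (hLs _ _ _ _ g3 g4 g1).elim
    · rcases hkind i' x h2 with g3 | g3 | ⟨j', s', ⟨g3, g4⟩, rfl⟩
      · exact (hLM _ _ _ g3 g1).elim
      · exact_mod_cast hMM _ _ _ g1 g3
      · exact (hMs _ _ _ _ g3 g4 g1).elim
    · rcases hkind i' _ h2 with g3 | g3 | ⟨j', s', ⟨g3, g4⟩, h⟩
      · exact (hLs _ _ _ _ g1 g2 g3).elim
      · exact (hMs _ _ _ _ g1 g2 g3).elim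
      · have h3 := hK _ _ _ (hfX s' g3.le g4.le) _ (hfX s g1.le g2.le) (hmv h)
        exact_mod_cast (hKm _ _ h3.2).symm
  · have key : ∀ i j : ℕ, i < j → ∃ p ∈ φ i, ∃ q ∈ φ j, (cay S).Adj p q := by
      intro i j hij
      refine ⟨F (K * j) (K * i) * f (m - 1), Or.inr ⟨⟨j, hij⟩, m - 1, ⟨by omega, le_refl _⟩, rfl⟩,
        F (K * j) (K * i) * f m, Or.inl (Or.inr (hmM i j)), (cay_left S _ _ _).2 ?_⟩
      have := hfa (m - 1) (by omega) (by omega)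
      rwa [sub_add_cancel] at this
    intro i j hij
    rcases Nat.lt_or_gt_of_ne (show i ≠ j from hij) with h | h
    · exact key i j h
    · obtain ⟨p, hp, q, hq, hpq⟩ := key j i h
      exact ⟨q, hq, p, hp, hpq.symm⟩

/-- Groups with a normal subgroup `ℤ²` of infinite index. -/
theorem u5 (Γ : Type u) [Group Γ] (a b : Γ) (hab : a * b = b * a)
    (hind : ∀ i j : ℤ, a ^ i * b ^ j = 1 → i = 0 ∧ j = 0)
    (hn : (Subgroup.closure {a, b}).Normal) (hi : ¬ (Subgroup.closure {a, b}).FiniteIndex)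
    (S : Set Γ) (hS : IsGen S) : KN (cay S) := by
  classical
  obtain ⟨F, hF⟩ : ∃ F : ℤ → ℤ → Γ, ∀ i j, F i j = a ^ i * b ^ j := ⟨_, fun i j => rfl⟩
  have Fmul : ∀ i j i' j', F i j * F i' j' = F (i + i') (j + j') := by
    intro i j i' j'
    have c1 : Commute (a ^ i') (b ^ j) := (show Commute a b from hab).zpow_zpow _ _
    rw [hF, hF, hF, zpow_add, zpow_add]
    calc a ^ i * b ^ j * (a ^ i' * b ^ j') = a ^ i * (b ^ j * a ^ i') * b ^ j' := by group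
      _ = a ^ i * (a ^ i' * b ^ j) * b ^ j' := by rw [c1.eq]
      _ = _ := by group
  have F0 : F 0 0 = 1 := by rw [hF]; simp
  have Fa : F 1 0 = a := by rw [hF]; simp
  have Fb : F 0 1 = b := by rw [hF]; simp
  have Finv : ∀ i j, (F i j)⁻¹ = F (-i) (-j) := by
    intro i j
    rw [inv_eq_iff_mul_eq_one, Fmul, add_neg_cancel, add_neg_cancel, F0]
  have Fz : ∀ i j n : ℤ, (F i j) ^ n = F (n * i) (n * j) := by
    intro i j n
    have hn : ∀ n : ℕ, (F i j) ^ n = F (n * i) (n * j) := by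
      intro n
      induction n with
      | zero => rw [pow_zero]; simp [F0]
      | succ n ih =>
        rw [pow_succ, ih, Fmul]
        congr 1 <;> push_cast <;> ring
    obtain ⟨m, rfl | rfl⟩ := n.eq_nat_or_neg
    · rw [zpow_natCast, hn]
    · rw [zpow_neg, zpow_natCast, hn, Finv]
      congr 1 <;> ring
  have hH : ∀ x, x ∈ Subgroup.closure {a, b} ↔ ∃ i j, x = F i j := by
    intro x
    constructor
    · intro hx
      induction hx using Subgroup.closure_induction with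
      | mem x hx =>
        rcases hx with rfl | rfl
        · exact ⟨1, 0, Fa.symm⟩
        · exact ⟨0, 1, Fb.symm⟩
      | one => exact ⟨0, 0, F0.symm⟩
      | mul x y _ _ hx hy =>
        obtain ⟨i, j, rfl⟩ := hx
        obtain ⟨i', j', rfl⟩ := hy
        exact ⟨_, _, Fmul _ _ _ _⟩
      | inv x _ hx =>
        obtain ⟨i, j, rfl⟩ := hx
        exact ⟨_, _, Finv _ _⟩
    · rintro ⟨i, j, rfl⟩
      rw [hF]
      exact Subgroup.mul_mem _ (Subgroup.zpow_mem _ (Subgroup.subset_closure (by simp)) _)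
        (Subgroup.zpow_mem _ (Subgroup.subset_closure (by simp)) _)
  obtain ⟨P, hPf, hPc, hPs, -⟩ := Pool.Agent.Helper71.KZ.bal Γ S ⊥ {1, a, b} hS
    (by simp) (by simp)
  have h1P : (1 : Γ) ∈ P := hPs (by simp)
  have haP : a ∈ P := hPs (by simp)
  have hbP : b ∈ P := hPs (by simp)
  -- a far element
  obtain ⟨y, hy⟩ : ∃ y, ∀ i j, ∀ p ∈ P, ∀ q ∈ P, F i j * p ≠ y * q := by
    by_contra hno
    push Not at hno
    apply hi
    have hfin : Finite (Γ ⧸ Subgroup.closure {a, b}) := by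
      have h1 : (Set.image2 (fun p q : Γ => ((p * q⁻¹ : Γ) : Γ ⧸ Subgroup.closure {a, b})) P P).Finite :=
        hPf.image2 _ hPf
      have h2 : (Set.univ : Set (Γ ⧸ Subgroup.closure {a, b})).Finite := by
        refine h1.subset ?_
        intro c _
        obtain ⟨y, rfl⟩ := QuotientGroup.mk_surjective c
        obtain ⟨i, j, p, hp, q, hq, h⟩ := hno y
        refine ⟨p, hp, q, hq, ?_⟩
        show ((p * q⁻¹ : Γ) : Γ ⧸ Subgroup.closure {a, b}) = (y : Γ ⧸ Subgroup.closure {a, b})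
        rw [QuotientGroup.eq]
        have h3 : y = F i j * (p * q⁻¹) := by rw [← mul_assoc, h, mul_inv_cancel_right]
        rw [h3]
        have h4 := hn.conj_mem _ ((hH _).2 ⟨i, j, rfl⟩) (p * q⁻¹)⁻¹
        rw [inv_inv, mul_assoc] at h4
        exact h4
      exact Set.finite_univ_iff.1 h2
    exact Subgroup.finiteIndex_of_finite_quotient
  -- the second direction
  obtain ⟨α, β, hα⟩ := (hH _).1 (hn.conj_mem a (Subgroup.subset_closure (by simp)) y)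
  obtain ⟨γ, δ, hγ⟩ := (hH _).1 (hn.conj_mem b (Subgroup.subset_closure (by simp)) y)
  obtain ⟨p, q, hq, c, hcP, hec⟩ : ∃ p q : ℤ, q ≠ 0 ∧ ∃ c ∈ P, F p q * y = y * c := by
    by_cases h1 : β = 0
    · by_cases h2 : δ = 0
      · exfalso
        rw [h1] at hα
        rw [h2] at hγ
        have h3 : y * (a ^ γ * b ^ (-α)) * y⁻¹ = 1 := by
          have e1 : (y * a * y⁻¹) ^ γ = y * a ^ γ * y⁻¹ := conj_zpow
          have e2 : (y * b * y⁻¹) ^ (-α) = y * b ^ (-α) * y⁻¹ := conj_zpow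
          have e3 : (y * a * y⁻¹) ^ γ * (y * b * y⁻¹) ^ (-α) = 1 := by
            rw [hα, hγ, Fz, Fz, Fmul, ← F0]
            congr 1 <;> ring
          rw [e1, e2] at e3
          rw [← e3]
          group
        have h4 : a ^ γ * b ^ (-α) = 1 := by
          have := congrArg (fun x => y⁻¹ * x * y) h3
          simpa [mul_assoc] using this
        obtain ⟨h5, h6⟩ := hind _ _ h4
        have h7 : α = 0 := by omega
        rw [h7, F0] at hα
        have h8 : a = 1 := by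
          have := congrArg (fun x => y⁻¹ * x * y) hα
          simpa [mul_assoc] using this
        have h9 := hind 1 0 (by rw [h8]; simp)
        exact absurd h9.1 one_ne_zero
      · exact ⟨γ, δ, h2, b, hbP, by rw [← hγ]; group⟩
    · exact ⟨α, β, h1, a, haP, by rw [← hα]; group⟩
  -- the bridge
  obtain ⟨m, f, hm, ⟨i₀, j₀, p₀, hp₀, hf0⟩, ⟨i₁, j₁, p₁, hp₁, hfm⟩, hfa, hfi⟩ :=
    bridge (wk_conn hS) (A := {x | ∃ i j, ∃ p ∈ P, x = F i j * p})
      (B := {x | ∃ i j, ∃ p ∈ P, x = F i j * (y * p)}) ⟨_, 0, 0, 1, h1P, rfl⟩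
      ⟨_, 0, 0, 1, h1P, rfl⟩ (by
        rintro x ⟨i, j, p, hp, rfl⟩ ⟨i', j', q, hq, h⟩
        refine hy (-i' + i) (-j' + j) p hp q hq ?_
        rw [← Fmul, ← Finv, mul_assoc, h, inv_mul_cancel_left])
  obtain ⟨e, he⟩ : ∃ e, e = F p q := ⟨_, rfl⟩
  obtain ⟨g, hg⟩ : ∃ g, g = F (-i₀ + i₁) (-j₀ + j₁) := ⟨_, rfl⟩
  have hFe : ∀ i j : ℤ, a ^ i * e ^ j = F (i + j * p) (j * q) := by
    intro i j
    rw [he, Fz, ← Fa, Fz, Fmul]
    congr 1 <;> ring
  have hcomm : ∀ i j i' j', F i j * F i' j' = F i' j' * F i j := by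
    intro i j i' j'
    rw [Fmul, Fmul, add_comm i, add_comm j]
  refine core hS (a := a) (e := e) (P := P) (Y := {x | ∃ r ∈ P, (g * y) * r = x}) (z := g * y)
    (m := m) (f := fun s => (F i₀ j₀)⁻¹ * f s) ?_ ?_ hPf ?_ hPc ?_ h1P haP
    ⟨1, h1P, mul_one _⟩ ⟨c, hcP, ?_⟩ ?_ hm ?_ ?_ ?_ ?_ ?_
  · rw [he, ← Fa, hcomm]
  · intro i j h
    rw [hFe, hF] at h
    obtain ⟨h1, h2⟩ := hind _ _ h
    have h3 : j = 0 := (mul_eq_zero.1 h2).resolve_right hq
    rw [h3, zero_mul, add_zero] at h1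
    exact ⟨h1, h3⟩
  · exact hPf.image (fun r => (g * y) * r)
  · exact hPc.image (G' := cay S) (fun x => (g * y) * x)
      (fun x _ y' _ hxy => Or.inr ((cay_left S (g * y) x y').2 hxy))
  · rw [mul_assoc, ← hec, ← mul_assoc, ← mul_assoc, he, hg, hcomm]
  · rintro i j r hr _ ⟨r', hr', rfl⟩ h
    rw [hFe, hg, mul_assoc] at h
    refine hy (-(-i₀ + i₁) + (i + j * p)) (-(-j₀ + j₁) + j * q) r hr r' hr' ?_
    rw [← Fmul, ← Finv, mul_assoc, h, inv_mul_cancel_left]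
  · show (F i₀ j₀)⁻¹ * f 0 ∈ P
    rw [hf0, inv_mul_cancel_left]
    exact hp₀
  · show (F i₀ j₀)⁻¹ * f m ∈ {x | ∃ r ∈ P, (g * y) * r = x}
    refine ⟨p₁, hp₁, ?_⟩
    rw [hfm, hg, Finv, ← mul_assoc, Fmul, mul_assoc]
  · intro s h1 h2
    exact (cay_left S _ _ _).2 (hfa s h1 h2)
  · intro s h1 h2 i j r hr h
    change (F i₀ j₀)⁻¹ * f s = _ at h
    rw [hFe] at h
    refine (hfi s h1 h2).1 ⟨i₀ + (i + j * p), j₀ + j * q, r, hr, ?_⟩
    rw [← Fmul, mul_assoc, ← h, mul_inv_cancel_left]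
  · rintro s h1 h2 i j _ ⟨r, hr, rfl⟩ h
    change (F i₀ j₀)⁻¹ * f s = _ at h
    rw [hFe, hg, mul_assoc, ← mul_assoc (F (i + j * p) (j * q)), Fmul] at h
    refine (hfi s h1 h2).2 ⟨i₀ + (i + j * p + (-i₀ + i₁)), j₀ + (j * q + (-j₀ + j₁)), r, hr, ?_⟩
    rw [← Fmul, mul_assoc, ← h, mul_inv_cancel_left]

end Pool.Agent.Helper54.UN
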