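import Pool.Agent.Helper54.UN.U5

/-!
# Groups with a finitely generated normal subgroup of infinite index which contains `ℤ²`
-/

set_option autoImplicit false

namespace Pool.Agent.Helper54.UN

open Pool.Agent.Helper52.Wq2 Pool.Agent.Helper54.NW Pool.Agent.Helper61.NW

universe u

theorem u5p (Γ : Type u) [Group Γ] (H : Subgroup Γ) (hn : H.Normal) (hfg : Group.FG H)
    (hi : ¬ H.FiniteIndex) (a b : Γ) (ha : a ∈ H) (hb : b ∈ H) (hab : a * b = b * a)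
    (hind : ∀ i j : ℤ, a ^ i * b ^ j = 1 → i = 0 ∧ j = 0) (S : Set Γ) (hS : IsGen S) :
    KN (cay S) := by
  classical
  obtain ⟨R, hR⟩ := (Group.fg_iff_subgroup_fg H).1 hfg
  obtain ⟨F, hF⟩ : ∃ F : ℤ → ℤ → Γ, ∀ i j, F i j = a ^ i * b ^ j := ⟨_, fun i j => rfl⟩
  have Fmul : ∀ i j i' j', F i j * F i' j' = F (i + i') (j + j') := by
    intro i j i' j'
    have c1 : Commute (a ^ i') (b ^ j) := (show Commute a b from hab).zpow_zpow _ _
    rw [hF, hF, hF, zpow_add, zpow_add]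
    calc a ^ i * b ^ j * (a ^ i' * b ^ j') = a ^ i * (b ^ j * a ^ i') * b ^ j' := by group
      _ = a ^ i * (a ^ i' * b ^ j) * b ^ j' := by rw [c1.eq]
      _ = _ := by group
  have F0 : F 0 0 = 1 := by rw [hF]; simp
  have Fb : F 0 1 = b := by rw [hF]; simp
  have Finv : ∀ i j, (F i j)⁻¹ = F (-i) (-j) := by
    intro i j
    rw [inv_eq_iff_mul_eq_one, Fmul, add_neg_cancel, add_neg_cancel, F0]
  have FH : ∀ i j, F i j ∈ H := by
    intro i j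
    rw [hF]
    exact H.mul_mem (H.zpow_mem ha _) (H.zpow_mem hb _)
  obtain ⟨P, hPf, hPc, hPs, -⟩ := Pool.Agent.Helper71.KZ.bal Γ S ⊥ ({1, a} ∪ (R : Set Γ)) hS
    (by simp) ((by simp : ({1, a} : Set Γ).Finite).union R.finite_toSet)
  have h1P : (1 : Γ) ∈ P := hPs (Or.inl (by simp))
  have haP : a ∈ P := hPs (Or.inl (by simp))
  -- connected sets in `H P`
  have hC : ∀ h ∈ H, ∃ C : Set Γ, C.Finite ∧ Conn (cay S) C ∧ (1 : Γ) ∈ C ∧ h ∈ C ∧
      ∀ x ∈ C, ∃ h' ∈ H, ∃ p ∈ P, x = h' * p := by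
    intro h hh
    rw [← hR] at hh
    have hPP : ∀ x ∈ P, ∃ h' ∈ H, ∃ p ∈ P, x = h' * p :=
      fun x hx => ⟨1, H.one_mem, x, hx, (one_mul x).symm⟩
    induction hh using Subgroup.closure_induction with
    | mem r hr => exact ⟨P, hPf, hPc, h1P, hPs (Or.inr hr), hPP⟩
    | one => exact ⟨P, hPf, hPc, h1P, h1P, hPP⟩
    | mul x y hx hy ihx ihy =>
      obtain ⟨C, c1, c2, c3, c4, c5⟩ := ihx
      obtain ⟨D, d1, d2, d3, d4, d5⟩ := ihy
      have hx' : x ∈ H := by rw [← hR]; exact hx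
      have d6 : Conn (cay S) ((fun z => x * z) '' D) := d2.image (G' := cay S) (fun z => x * z)
        (fun p _ q _ hpq => Or.inr ((cay_left S x p q).2 hpq))
      refine ⟨C ∪ (fun z => x * z) '' D, c1.union (d1.image _),
        conn_meet c2 d6 c4 ⟨1, d3, mul_one x⟩, Or.inl c3, Or.inr ⟨y, d4, rfl⟩, ?_⟩
      rintro z (hz | ⟨w, hw, rfl⟩)
      · exact c5 z hz
      · obtain ⟨h', hh', p, hp, rfl⟩ := d5 w hw
        exact ⟨x * h', H.mul_mem hx' hh', p, hp, (mul_assoc _ _ _).symm⟩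
    | inv x hx ihx =>
      obtain ⟨C, c1, c2, c3, c4, c5⟩ := ihx
      have hx' : x ∈ H := by rw [← hR]; exact hx
      refine ⟨(fun z => x⁻¹ * z) '' C, c1.image _, c2.image (G' := cay S) (fun z => x⁻¹ * z)
        (fun p _ q _ hpq => Or.inr ((cay_left S x⁻¹ p q).2 hpq)), ⟨x, c4, inv_mul_cancel x⟩,
        ⟨1, c3, mul_one _⟩, ?_⟩
      rintro z ⟨w, hw, rfl⟩
      obtain ⟨h', hh', p, hp, rfl⟩ := c5 w hw
      exact ⟨x⁻¹ * h', H.mul_mem (H.inv_mem hx') hh', p, hp, (mul_assoc _ _ _).symm⟩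
  -- a far element
  obtain ⟨y, hy⟩ : ∃ y, ∀ h ∈ H, ∀ p ∈ P, ∀ q ∈ P, h * p ≠ y * q := by
    by_contra hno
    push Not at hno
    apply hi
    have hfin : Finite (Γ ⧸ H) := by
      have h1 : (Set.image2 (fun p q : Γ => ((p * q⁻¹ : Γ) : Γ ⧸ H)) P P).Finite :=
        hPf.image2 _ hPf
      have h2 : (Set.univ : Set (Γ ⧸ H)).Finite := by
        refine h1.subset ?_
        intro c _
        obtain ⟨y, rfl⟩ := QuotientGroup.mk_surjective c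
        obtain ⟨h, hh, p, hp, q, hq, he⟩ := hno y
        refine ⟨p, hp, q, hq, ?_⟩
        show ((p * q⁻¹ : Γ) : Γ ⧸ H) = (y : Γ ⧸ H)
        rw [QuotientGroup.eq]
        have h3 : y = h * (p * q⁻¹) := by rw [← mul_assoc, he, mul_inv_cancel_right]
        rw [h3]
        have h4 := hn.conj_mem _ hh (p * q⁻¹)⁻¹
        rw [inv_inv, mul_assoc] at h4
        exact h4
      exact Set.finite_univ_iff.1 h2
    exact Subgroup.finiteIndex_of_finite_quotient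
  have hyb : y⁻¹ * b * y ∈ H := by
    have := hn.conj_mem b hb y⁻¹
    rwa [inv_inv] at this
  obtain ⟨C, c1, c2, c3, c4, c5⟩ := hC _ hyb
  have hYn : ∀ h ∈ H, ∀ p ∈ P, ∀ c ∈ C, h * p ≠ y * c := by
    intro h hh p hp c hc he
    obtain ⟨h', hh', q, hq, rfl⟩ := c5 c hc
    have h6 : y * h' * y⁻¹ ∈ H := hn.conj_mem h' hh' y
    refine hy ((y * h' * y⁻¹)⁻¹ * h) (H.mul_mem (H.inv_mem h6) hh) p hp q hq ?_
    rw [mul_assoc, he]
    group
  -- the bridge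
  obtain ⟨m, f, hm, ⟨i₀, j₀, p₀, hp₀, hf0⟩, ⟨i₁, j₁, p₁, hp₁, hfm⟩, hfa, hfi⟩ :=
    bridge (wk_conn hS) (A := {x | ∃ i j, ∃ p ∈ P, x = F i j * p})
      (B := {x | ∃ i j, ∃ c ∈ C, x = F i j * (y * c)}) ⟨_, 0, 0, 1, h1P, rfl⟩
      ⟨_, 0, 0, 1, c3, rfl⟩ (by
        rintro x ⟨i, j, p, hp, rfl⟩ ⟨i', j', c, hc, h⟩
        refine hYn (F (-i' + i) (-j' + j)) (FH _ _) p hp c hc ?_
        rw [← Fmul, ← Finv, mul_assoc, h, inv_mul_cancel_left])
  obtain ⟨g, hg⟩ : ∃ g, g = F (-i₀ + i₁) (-j₀ + j₁) := ⟨_, rfl⟩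
  have hcomm : ∀ i j i' j', F i j * F i' j' = F i' j' * F i j := by
    intro i j i' j'
    rw [Fmul, Fmul, add_comm i, add_comm j]
  refine core hS (a := a) (e := b) (P := P) (Y := {x | ∃ r ∈ C, (g * y) * r = x}) (z := g * y)
    (m := m) (f := fun s => (F i₀ j₀)⁻¹ * f s) hab hind hPf ?_ hPc ?_ h1P haP
    ⟨1, c3, mul_one _⟩ ⟨y⁻¹ * b * y, c4, ?_⟩ ?_ hm ?_ ?_ ?_ ?_ ?_
  · exact c1.image (fun r => (g * y) * r)
  · exact c2.image (G' := cay S) (fun x => (g * y) * x)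
      (fun x _ y' _ hxy => Or.inr ((cay_left S (g * y) x y').2 hxy))
  · have h7 : g * b = b * g := by rw [hg, ← Fb, hcomm]
    calc g * y * (y⁻¹ * b * y) = g * b * y := by group
      _ = b * (g * y) := by rw [h7, mul_assoc]
  · rintro i j r hr _ ⟨r', hr', rfl⟩ h
    rw [← hF, hg, mul_assoc] at h
    refine hYn (F (-(-i₀ + i₁) + i) (-(-j₀ + j₁) + j)) (FH _ _) r hr r' hr' ?_
    rw [← Fmul, ← Finv, mul_assoc, h, inv_mul_cancel_left]
  · show (F i₀ j₀)⁻¹ * f 0 ∈ P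
    rw [hf0, inv_mul_cancel_left]
    exact hp₀
  · show (F i₀ j₀)⁻¹ * f m ∈ {x | ∃ r ∈ C, (g * y) * r = x}
    refine ⟨p₁, hp₁, ?_⟩
    rw [hfm, hg, Finv, ← mul_assoc, Fmul, mul_assoc]
  · intro s h1 h2
    exact (cay_left S _ _ _).2 (hfa s h1 h2)
  · intro s h1 h2 i j r hr h
    change (F i₀ j₀)⁻¹ * f s = _ at h
    rw [← hF] at h
    refine (hfi s h1 h2).1 ⟨i₀ + i, j₀ + j, r, hr, ?_⟩
    rw [← Fmul, mul_assoc, ← h, mul_inv_cancel_left]
  · rintro s h1 h2 i j _ ⟨r, hr, rfl⟩ h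
    change (F i₀ j₀)⁻¹ * f s = _ at h
    rw [← hF, hg, mul_assoc, ← mul_assoc (F i j), Fmul] at h
    refine (hfi s h1 h2).2 ⟨i₀ + (i + (-i₀ + i₁)), j₀ + (j + (-j₀ + j₁)), r, hr, ?_⟩
    rw [← Fmul, mul_assoc, ← h, mul_inv_cancel_left]

end Pool.Agent.Helper54.UN
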